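import Pool.Agent.Q318.RG.Balanced

set_option autoImplicit false

/-!
# Maps which are balanced modulo the small moduli take values all of whose coordinates are inside record prime gaps

A map `F : ℤ^n → ℤ^r` is balanced modulo `q` if it is well defined modulo `q` and takes all values modulo `q` equally
often: for example triangular maps `(± x_1 + G_1(x_2, …, x_n), ± x_2 + G_2(x_3, …, x_n), …, ± x_r + G_r(x_(r+1), …, x_n))`
with arbitrary integer polynomials `G_i`, all polynomial automorphisms of `ℤ^r` (`n = r`), linear maps with invertible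
minors, and compositions of such maps.

Let `0 < ε ≤ 1`. There are `κ > 0` (depending on `r`, `ε`) and `M₀` such that for all `M ≥ M₀`, ALL maps `F` balanced
modulo all `q ≤ M ^ ε` (no bound on degrees or coefficients, and no fixed `F`: it may depend on `M`) and all boxes of sides
`N_j ≥ M ^ ε`, anywhere, on which the coordinates of `F` are at least `M ^ ε`, at least `(∏ N_j) M ^ (-ε)` points `x` of the
box are such that no prime lies at distance at most `κ log M (log₂ M)² log₄ M / (log₃ M)²` of any of the coordinates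
of `F(x)`. The second part is the case of polynomial automorphisms.
-/

namespace Pool.Agent.Results.MP_7ba156_nt.BalancedMaps

open Finset

/-- the record scale -/
noncomputable def scale (x : ℝ) : ℝ :=
  Real.log x * (Real.log (Real.log x)) ^ 2 * Real.log (Real.log (Real.log (Real.log x))) /
    (Real.log (Real.log (Real.log x))) ^ 2

/-- no prime lies at distance at most `K` of any of the coordinates of `v` -/
def AllIsolated {r : ℕ} (K : ℝ) (v : Fin r → ℤ) : Prop := ∀ j, ∀ q : ℕ, q.Prime → K < |(q : ℝ) - v j|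

/-- `F` induces a map modulo `q`, which takes all the values equally often -/
def Balanced {n r : ℕ} (q : ℕ) (F : (Fin n → ℤ) → Fin r → ℤ) : Prop :=
  ∃ f : (Fin n → ZMod q) → Fin r → ZMod q,
    (∀ x : Fin n → ℤ, (fun i => ((F x i : ℤ) : ZMod q)) = f (fun j => ((x j : ℤ) : ZMod q))) ∧
    ∀ ρ ρ' : Fin r → ZMod q, Nat.card {y // f y = ρ} = Nat.card {y // f y = ρ'}

/-- the points of the box `∏ [a_j, a_j + N_j)` with the property `P` -/
noncomputable def number {n : ℕ} (a : Fin n → ℤ) (N : Fin n → ℕ) (P : (Fin n → ℤ) → Prop) : ℕ :=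
  {x : Fin n → ℤ | (∀ j, a j ≤ x j ∧ x j < a j + N j) ∧ P x}.ncard

lemma number_eq {n : ℕ} (a : Fin n → ℤ) (N : Fin n → ℕ) (P : (Fin n → ℤ) → Prop) [DecidablePred P] :
    ((Fintype.piFinset fun j => range (N j)).filter (fun t => P (fun j => a j + t j))).card = number a N P := by
  unfold number
  rw [← Set.ncard_coe_finset]
  refine Set.ncard_congr (fun t _ => fun j => a j + (t j : ℤ)) ?_ ?_ ?_
  · intro t ht
    rw [mem_coe, mem_filter, Fintype.mem_piFinset] at ht
    refine ⟨fun j => ?_, ht.2⟩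
    have h1 := mem_range.1 (ht.1 j)
    have h2 : (t j : ℤ) < N j := by exact_mod_cast h1
    constructor
    · linarith [Nat.cast_nonneg (α := ℤ) (t j)]
    · linarith
  · intro t t' _ _ h
    funext j
    have h1 : a j + (t j : ℤ) = a j + (t' j : ℤ) := congrFun h j
    have h2 : (t j : ℤ) = t' j := by linarith
    exact_mod_cast h2
  · rintro x ⟨hx1, hx2⟩
    refine ⟨fun j => (x j - a j).toNat, ?_, ?_⟩
    · rw [mem_coe, mem_filter, Fintype.mem_piFinset]
      have h3 : (fun j => a j + (((x j - a j).toNat : ℕ) : ℤ)) = x := by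
        funext j
        rw [Int.toNat_of_nonneg (by linarith [(hx1 j).1])]
        ring
      refine ⟨fun j => mem_range.2 ?_, by rw [h3]; exact hx2⟩
      have h4 : (((x j - a j).toNat : ℕ) : ℤ) < N j := by
        rw [Int.toNat_of_nonneg (by linarith [(hx1 j).1])]
        linarith [(hx1 j).2]
      exact_mod_cast h4
    · funext j
      simp only
      rw [Int.toNat_of_nonneg (by linarith [(hx1 j).1])]
      ring

/-- **Balanced maps meet record prime gaps in all coordinates.** -/
theorem result (r n : ℕ) (hr : 1 ≤ r) (ε : ℝ) (h0 : 0 < ε) (h1 : ε ≤ 1) :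
    -- balanced maps
    (∃ κ : ℝ, 0 < κ ∧ ∃ M₀ : ℝ, ∀ M : ℝ, M₀ ≤ M → ∀ F : (Fin n → ℤ) → Fin r → ℤ,
      (∀ q : ℕ, 1 ≤ q → (q : ℝ) ≤ M ^ ε → Balanced q F) →
      ∀ (a : Fin n → ℤ) (N : Fin n → ℕ), (∀ j, M ^ ε ≤ N j) →
      (∀ x : Fin n → ℤ, (∀ j, a j ≤ x j ∧ x j < a j + N j) → ∀ i, M ^ ε ≤ F x i) →
      (∏ j, (N j : ℝ)) * M ^ (-ε) ≤ number a N (fun x => AllIsolated (κ * scale M) (F x))) ∧
    -- polynomial automorphisms
    (∃ κ : ℝ, 0 < κ ∧ ∃ M₀ : ℝ, ∀ M : ℝ, M₀ ≤ M →
      ∀ Φ : MvPolynomial (Fin r) ℤ ≃ₐ[ℤ] MvPolynomial (Fin r) ℤ,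
      ∀ (a : Fin r → ℤ) (N : Fin r → ℕ), (∀ j, M ^ ε ≤ N j) →
      (∀ x : Fin r → ℤ, (∀ j, a j ≤ x j ∧ x j < a j + N j) → ∀ i,
        M ^ ε ≤ MvPolynomial.eval x (Φ (MvPolynomial.X i))) →
      (∏ j, (N j : ℝ)) * M ^ (-ε) ≤
        number a N (fun x => AllIsolated (κ * scale M) (fun i => MvPolynomial.eval x (Φ (MvPolynomial.X i))))) := by
  classical
  constructor
  · obtain ⟨κ, hκ, h⟩ := Pool.Agent.Q318.RG.balanced r n hr ε h0 h1
    obtain ⟨M₀, hM₀⟩ := Filter.eventually_atTop.1 h
    refine ⟨κ, hκ, M₀, fun M hM F hF a N hN hpos => ?_⟩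
    have h2 := hM₀ M hM F hF a N hN hpos
    rw [← number_eq]
    refine h2.trans (le_of_eq ?_)
    norm_cast
  · obtain ⟨κ, hκ, h⟩ := Pool.Agent.Q318.RG.balanced r r hr ε h0 h1
    obtain ⟨M₀, hM₀⟩ := Filter.eventually_atTop.1 h
    refine ⟨κ, hκ, M₀, fun M hM Φ a N hN hpos => ?_⟩
    have h2 := hM₀ M hM (fun x i => MvPolynomial.eval x (Φ (MvPolynomial.X i)))
      (fun q _ _ => Pool.Agent.Q318.RG.balanced_aut Φ q) a N hN hpos
    rw [← number_eq]
    refine h2.trans (le_of_eq ?_)
    norm_cast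

end Pool.Agent.Results.MP_7ba156_nt.BalancedMaps
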