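import Pool.Agent.Q39.RD.FamFinal

set_option autoImplicit false

/-!
# The exponents for which powers of integers do not meet record prime gaps have small dimension

Let `1 ≤ a 1 < a 2 < …` be integers with `a n ≤ n ^ (K + o(1))`, let `b n` be any real numbers and let
`v > 1`.  Then all exponents `x` in `(1, v)` outside a set of Hausdorff dimension at most
`1 - 1 / (K v)` have the following property if `(a n) ^ x + b n` is at least a power of `n` for all
large `n`: for every `δ > 0` there is `κ > 0` such that for all large `M` at least `M ^ (1 - δ)` of the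
indices `n` in `(M, 4 M]` are such that no prime lies within
`κ log M (log₂ M)² log₄ M / (log₃ M)²` of `(a n) ^ x + b n`.

This is the case `F n x = (a n) ^ x + b n` of the first part of the theorem: for twice continuously
differentiable functions `F n` with `(F (n + 1))' - (F n)' ≥ n ^ (ρ - 1)`, `(F (n + 1))'' ≥ (F n)''`
and `|(F n)'| ≤ n ^ (c + o(1))` on `[u, v]` the exceptional parameters in `(u, v)` form a set of
dimension at most `1 - ρ / c`.

Proof.  The first derivative test gives sharp mean squares over the parameter; the exponential sums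
change little when the parameter changes by `N ^ (-c - η)`; so the bad parameters at the scale `N` are
covered by `N ^ (c - ρ + O(η))` intervals of this length.  The covering sieve of the starting library,
`Pool.Agent.TH915.PW.crit_scaled`, is used for all subsets of large size.
-/

open MeasureTheory Filter

namespace Pool.Agent.Results.MP_7ba156_nt.ExceptionalExponents

/-- `L(x) = log x (log log x)^2 log log log log x / (log log log x)^2`. -/
noncomputable def L (x : ℝ) : ℝ :=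
  Real.log x * (Real.log (Real.log x)) ^ 2 * Real.log (Real.log (Real.log (Real.log x))) /
    (Real.log (Real.log (Real.log x))) ^ 2

/-- for every `δ > 0` there is `κ > 0` such that for all large `M` at least `M ^ (1 - δ)` of the
numbers `x n`, `M < n ≤ 4 M`, are at distance greater than `κ L(M)` from all primes -/
def MeetsRecordGapsOften (x : ℕ → ℝ) : Prop :=
  ∀ δ : ℝ, 0 < δ → ∃ κ : ℝ, 0 < κ ∧ ∀ᶠ M : ℝ in atTop, ∃ s : Finset ℕ,
    M ^ (1 - δ) ≤ (s.card : ℝ) ∧ ∀ n ∈ s, M < n ∧ (n : ℝ) ≤ 4 * M ∧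
      ∀ q : ℕ, q.Prime → κ * L M < |(q : ℝ) - x n|

theorem result :
    (∀ ρ c u v : ℝ, 0 < ρ → ρ ≤ 1 → ρ ≤ c → ∀ (n₀ : ℕ) (F F' F'' : ℕ → ℝ → ℝ),
      (∀ n x, HasDerivAt (F n) (F' n x) x) → (∀ n x, HasDerivAt (F' n) (F'' n x) x) →
      (∀ n, Continuous (F'' n)) →
      (∀ n, n₀ ≤ n → ∀ x ∈ Set.Icc u v, (n : ℝ) ^ (ρ - 1) ≤ F' (n + 1) x - F' n x ∧
        F'' n x ≤ F'' (n + 1) x) →
      (∀ c' : ℝ, c < c' → ∀ᶠ n : ℕ in atTop, ∀ x ∈ Set.Icc u v, |F' n x| ≤ (n : ℝ) ^ c') →
      dimH {x : ℝ | u < x ∧ x < v ∧ (∃ ε : ℝ, 0 < ε ∧ ∀ᶠ n : ℕ in atTop, (n : ℝ) ^ ε ≤ F n x) ∧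
        ¬ MeetsRecordGapsOften (fun n => F n x)} ≤ ENNReal.ofReal (1 - ρ / c)) ∧
    (∀ K v : ℝ, 1 ≤ K → 1 < v → ∀ a : ℕ → ℕ, StrictMono a → (∀ n, 1 ≤ a n) →
      (∀ K' : ℝ, K < K' → ∀ᶠ n : ℕ in atTop, (a n : ℝ) ≤ (n : ℝ) ^ K') → ∀ b : ℕ → ℝ,
      dimH {x : ℝ | 1 < x ∧ x < v ∧
        (∃ ε : ℝ, 0 < ε ∧ ∀ᶠ n : ℕ in atTop, (n : ℝ) ^ ε ≤ (a n : ℝ) ^ x + b n) ∧
        ¬ MeetsRecordGapsOften (fun n => (a n : ℝ) ^ x + b n)} ≤
          ENNReal.ofReal (1 - 1 / (K * v))) := by
  constructor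
  · intro ρ c u v hρ hρ1 hρc n₀ F F' F'' h1 h2 h3 h4 h5
    exact Pool.Agent.Q39.RD.fam_dim ρ c hρ.le hρ1 hρc (by linarith) u v F F' F'' n₀
      ⟨h1, h2, h3, fun n hn x hx => (h4 n hn x hx).1,
        fun n hn x hx => sub_nonneg.mpr (h4 n hn x hx).2⟩ h5
  · intro K v hK hv a ha ha1 haK b
    have hKv : 1 ≤ K * v := one_le_mul_of_one_le_of_one_le hK hv.le
    refine Pool.Agent.Q39.RD.fam_dim 1 (K * v) zero_le_one le_rfl hKv (by linarith) 1 v
      (fun n x => (a n : ℝ) ^ x + b n) _ _ 3 (Pool.Agent.TH668.Met.fam_pow a ha ha1 b v) ?_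
    intro c' hc'
    set s : ℝ := min 1 ((c' - K * v) / (K + v + 1)) with hs
    have hs0 : 0 < s := lt_min one_pos (div_pos (by linarith) (by linarith))
    have hs1 : s ≤ 1 := min_le_left _ _
    have hs2 : s * (K + v + 1) ≤ c' - K * v := by
      have := min_le_right 1 ((c' - K * v) / (K + v + 1))
      rw [← hs, le_div_iff₀ (by linarith)] at this
      exact this
    have hss : (K + s) * (v + s) ≤ c' := by nlinarith
    have hat : Tendsto (fun n : ℕ => (a n : ℝ)) atTop atTop :=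
      tendsto_natCast_atTop_atTop.comp ha.tendsto_atTop
    have hlog := hat.eventually ((isLittleO_log_rpow_atTop hs0).bound one_pos)
    filter_upwards [haK (K + s) (by linarith), hlog, eventually_ge_atTop 1] with n hn hn2 hn1 x hx
    have ha0 : (1 : ℝ) ≤ a n := by exact_mod_cast ha1 n
    have hn0 : (1 : ℝ) ≤ n := by exact_mod_cast hn1
    have hl0 : 0 ≤ Real.log (a n) := Real.log_nonneg ha0
    rw [Real.norm_of_nonneg hl0, Real.norm_of_nonneg (by positivity), one_mul] at hn2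
    rw [abs_of_nonneg (by positivity)]
    calc (a n : ℝ) ^ x * Real.log (a n) ≤ (a n : ℝ) ^ v * (a n : ℝ) ^ s := by
          apply mul_le_mul (Real.rpow_le_rpow_of_exponent_le ha0 hx.2) hn2 hl0 (by positivity)
      _ = (a n : ℝ) ^ (v + s) := by rw [Real.rpow_add (by linarith)]
      _ ≤ ((n : ℝ) ^ (K + s)) ^ (v + s) := Real.rpow_le_rpow (by linarith) hn (by linarith)
      _ = (n : ℝ) ^ ((K + s) * (v + s)) := by rw [Real.rpow_mul (by linarith)]
      _ ≤ _ := Real.rpow_le_rpow_of_exponent_le hn0 hss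

end Pool.Agent.Results.MP_7ba156_nt.ExceptionalExponents
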