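import Pool.Agent.Q20.RG.QuadSys

/-!
# Record prime gaps around the coordinates of a point and the values of a system of quadratic polynomials

Let `F_1, ..., F_(s0)` and `F'_1, ..., F'_(s1)` be quadratic polynomials in `n` variables over the integers
such that modulo the prime `p` every nontrivial linear combination of their (symmetrised) quadratic parts
has rank at least `ρ`.  For every `0 < ε ≤ 1` there are `κ > 0` and `p₀`, which depend only on
`n, s0, s1, ε`, such that for `p ≥ p₀` every box `∏ [A_i, A_i + N_i) × ∏ [A'_k, A'_k + N'_k)` in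
`[0, p)^(n + s1)` with sides at least `p^ε` and of volume at least `p^(n + s0 + s1 - ρ/2 + ε)` contains
at least `(volume) p^(-s0 - s1 - ε)` points `(x, y)` with `F_k(x) ≡ 0` and `F'_k(x) ≡ y_k` modulo `p` for all
`k` (about `(volume) p^(-s0 - s1)` are expected) such that ALL the coordinates of `x` and of `y` are isolated
on the record scale: no prime lies at distance at most `κ log p (log₂ p)² log₄ p / (log₃ p)²` of any of them.

Examples: `s0 = 0`: the coordinates of `x` and the values modulo `p` of `s1` quadratic polynomials, such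
as two vectors and their cross product (`n = 6`, `s1 = 3`, `ρ = 4`), two quaternions and their product, or a
`k × m` matrix `X` with all the entries of the Gram matrix `X Xᵀ` modulo `p` (`n = k m`,
`s1 = k (k + 1) / 2`, `ρ = m`); `s1 = 0`: the points of an intersection of quadrics modulo `p`.

Proof (`Pool.Agent.Q20.RG`): Weyl differencing for the exponential sums over the common zeros of the
`F_k`, completion in `n + s1` coordinates and helper46's form (`Pool.Agent.Q46.MH.crit_many`) of the covering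
criterion for vectors of integers of the starting repository (`Pool.Agent.Y961.JR.critJ`).
-/

set_option autoImplicit false

namespace Pool.Agent.Results.MP_7ba156_nt.QuadraticSystems

/-- the record scale `log x (log₂ x)² log₄ x / (log₃ x)²` -/
noncomputable def scale (x : ℝ) : ℝ :=
  Real.log x * (Real.log (Real.log x)) ^ 2 * Real.log (Real.log (Real.log (Real.log x))) /
    (Real.log (Real.log (Real.log x))) ^ 2

/-- no prime at distance at most `K` of `n` -/
def Isolated (K : ℝ) (n : ℕ) : Prop := ∀ q : ℕ, q.Prime → K < |(q : ℝ) - n|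

/-- the value at `x` of the quadratic polynomial with coefficients `M, b, c` -/
def quad {n : ℕ} (M : Matrix (Fin n) (Fin n) ℤ) (b : Fin n → ℤ) (c : ℤ) (x : Fin n → ℕ) : ℤ :=
  ∑ i, ∑ j, M i j * x i * x j + ∑ i, b i * x i + c

/-- **Isolated points with isolated values of quadratic polynomials modulo `p`.** The polynomials
`quad (M (inl k)) (b (inl k)) (c (inl k))`, `k < s0`, are the equations and
`quad (M (inr k)) (b (inr k)) (c (inr k))`, `k < s1`, are the ones with isolated values; `ρ` bounds from below the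
rank modulo `p` of every nontrivial linear combination of the symmetric matrices `M k + (M k)ᵀ`. -/
theorem result : ∀ n s0 s1 ρ : ℕ, 1 ≤ n → ∀ ε : ℝ, 0 < ε → ε ≤ 1 →
    ∃ κ : ℝ, 0 < κ ∧ ∃ p₀ : ℕ, ∀ p : ℕ, p₀ ≤ p → p.Prime →
    ∀ (M : Fin s0 ⊕ Fin s1 → Matrix (Fin n) (Fin n) ℤ) (b : Fin s0 ⊕ Fin s1 → Fin n → ℤ)
      (c : Fin s0 ⊕ Fin s1 → ℤ),
    (∀ g : Fin s0 ⊕ Fin s1 → ZMod p, g ≠ 0 →
      ρ ≤ (∑ k, g k • (M k + (M k).transpose).map (fun z : ℤ => (z : ZMod p))).rank) →
    ∀ (A N : Fin n → ℕ) (A' N' : Fin s1 → ℕ), (∀ i, A i + N i ≤ p ∧ (p : ℝ) ^ ε ≤ N i) →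
      (∀ k, A' k + N' k ≤ p ∧ (p : ℝ) ^ ε ≤ N' k) →
      (p : ℝ) ^ ((n : ℝ) + s0 + s1 - ρ / 2 + ε) ≤ (∏ i, (N i : ℝ)) * ∏ k, (N' k : ℝ) →
      ∃ G : Finset (Fin n → ℕ),
        ((∏ i, (N i : ℝ)) * ∏ k, (N' k : ℝ)) * (p : ℝ) ^ (-(s0 : ℝ) - s1 - ε) ≤ G.card ∧
        ∀ x ∈ G, (∀ i, A i ≤ x i ∧ x i < A i + N i) ∧
          (∀ k : Fin s0, (p : ℤ) ∣ quad (M (Sum.inl k)) (b (Sum.inl k)) (c (Sum.inl k)) x) ∧
          (∀ i, Isolated (κ * scale p) (x i)) ∧
          ∀ k : Fin s1, ∃ y : ℕ, (A' k ≤ y ∧ y < A' k + N' k) ∧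
            (p : ℤ) ∣ quad (M (Sum.inr k)) (b (Sum.inr k)) (c (Sum.inr k)) x - y ∧
            Isolated (κ * scale p) y :=
  fun n s0 s1 ρ hn ε h0 h1 => Pool.Agent.Q20.RG.quadsys n s0 s1 ρ hn ε h0 h1

end Pool.Agent.Results.MP_7ba156_nt.QuadraticSystems
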