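import Pool.Agent.Q46.IP.Tools
import Pool.Agent.Q46.SL.Several

/-!
# Almost primes in the middle of long gaps: residues modulo several primes

The problem is on upper bounds for the gaps between primes. We find almost primes `x` in the MIDDLE of long gaps (all other
integers within `κ rankin(Q)` of `x` are divisible by a prime `≤ log Q`), such that the residues of `F_i(x)` modulo several
primes `p_i` are also almost primes in the middle of long gaps.

Let `p_1, ..., p_r` be different primes with large product `Q`, and let `F_i` be a polynomial of degree `2 ≤ deg ≤ d` or a reciprocal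
`c / x` modulo `p_i`. In all boxes above a certain size there are many integers `x` such that ALL of `x` and the least residues of
`F_i(x)` modulo `p_i`, `i = 1, ..., r`, have the property.

Here the property is: `x` has at most `R` prime factors, all larger than `M ^ κ`, while EVERY other integer within distance `κ
rankin(M)` of `x` has a prime factor `≤ log M`, where `rankin(M) = log M log₂ M log₄ M / (log₃ M) ^ 2`. (`M = Q`)

Design and proof: helper46 (modules `Pool.Agent.Q46.IP.*`, `Pool.Agent.Q46.SL.*`): the Rankin covering argument with holes at the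
pattern gives a modulus and a residue class in which everything else near the pattern is covered by the small primes; the sieve is
applied to the vectors of residues in this class, which are equidistributed with a power saving by bounds for exponential sums.
-/

set_option autoImplicit false

namespace Pool.Agent.Results.MP_7ba156_nt.SeveralPrimeModuli

open Finset Polynomial Filter
open Pool.Agent.Q46.SL hiding Almost
open Pool.Agent.Q46.IP (Lone csL evI sysT adm_pair adm_one lone_tuple lone_pair lone_one)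

/-- `n` is not zero and has at most `R` prime factors (counted with multiplicity), all larger than `z` -/
def Almost (z : ℝ) (R : ℕ) (n : ℤ) : Prop :=
  n ≠ 0 ∧ n.natAbs.primeFactorsList.length ≤ R ∧ ∀ q : ℕ, q.Prime → (q : ℤ) ∣ n → z < q

/-- Rankin's function `log M log₂ M log₄ M / (log₃ M) ^ 2` (iterated logarithms) -/
noncomputable def rankin (M : ℝ) : ℝ :=
  Real.log M * Real.log (Real.log M) * Real.log (Real.log (Real.log (Real.log M))) /
    (Real.log (Real.log (Real.log M))) ^ 2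

/-- `x` is positive and has at most `R` prime factors, all larger than `M ^ κ`, and every other integer `x + i` with
`|i| ≤ κ rankin(M)` has a prime factor `≤ log M` -/
def Isolated (κ M : ℝ) (R : ℕ) (x : ℤ) : Prop :=
  0 < x ∧ Almost (M ^ κ) R x ∧
    ∀ i : ℤ, |(i : ℝ)| ≤ κ * rankin M → i ≠ 0 → ∃ q : ℕ, q.Prime ∧ (q : ℝ) ≤ Real.log M ∧ (q : ℤ) ∣ x + i

/-- the functions modulo `q`: polynomials, and reciprocals `c x⁻¹` -/
inductive Func (q : ℕ) : Type
  | poly (f : (ZMod q)[X]) : Func q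
  | inv (c : (ZMod q)ˣ) : Func q

/-- the value (the reciprocal of `0` is `0`) -/
noncomputable def Func.value {q : ℕ} [Fact q.Prime] : Func q → ZMod q → ZMod q
  | .poly f, x => f.eval x
  | .inv c, x => (c : ZMod q) * x⁻¹

/-- the degrees of the polynomials are between `2` and `d` -/
def Func.Ok {q : ℕ} (d : ℕ) : Func q → Prop
  | .poly f => 2 ≤ f.natDegree ∧ f.natDegree ≤ d
  | .inv _ => True

/-- An integer `x` and the least residues of `F_i(x)` modulo several primes are ALL almost primes in the middle of long gaps. -/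
theorem result (r d : ℕ) (ε : ℝ) (hε : 0 < ε) (hε1 : ε ≤ 1) :
    ∃ κ : ℝ, 0 < κ ∧ ∃ R Q₀ : ℕ,
    ∀ p : Fin r → ℕ, ∀ [∀ i, Fact (p i).Prime], Function.Injective p → Q₀ ≤ ∏ i, p i → ∀ F : ∀ i, Func (p i), (∀ i, (F i).Ok d) →
      ∀ (A₀ N₀ : ℕ) (A N : Fin r → ℕ), A₀ + N₀ ≤ ∏ i, p i → (∀ i, A i + N i ≤ p i) →
        ((∏ i, p i : ℕ) : ℝ) ^ ε ≤ N₀ → (∀ i, ((∏ i, p i : ℕ) : ℝ) ^ ε ≤ N i) →
        (∀ i, ((∏ i, p i : ℕ) : ℝ) ^ (2 + ε) ≤ (N₀ : ℝ) * (∏ i, (N i : ℝ)) * Real.sqrt (p i)) →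
        ∃ G : Finset ℕ, ((N₀ : ℝ) * (∏ i, (N i : ℝ)) / ((∏ i, p i : ℕ) : ℝ)) * ((∏ i, p i : ℕ) : ℝ) ^ (-ε) ≤ G.card ∧
          ∀ x ∈ G, (A₀ ≤ x ∧ x < A₀ + N₀) ∧
          (∀ i, A i ≤ ((F i).value (x : ZMod (p i))).val ∧ ((F i).value (x : ZMod (p i))).val < A i + N i) ∧
          Isolated κ ((∏ i, p i : ℕ) : ℝ) R x ∧
          ∀ i, Isolated κ ((∏ i, p i : ℕ) : ℝ) R ((F i).value (x : ZMod (p i))).val := by
  have hK : (1 : ℝ) ≤ d + 3 := by
    have : (0 : ℝ) ≤ d := Nat.cast_nonneg _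
    linarith
  obtain ⟨κ, hκ, cc, hcc, Q₀, h⟩ := Pool.Agent.Q46.SL.several (Lone 1 : PE 1 0 1 → ℝ → ℝ → ℤ → Prop)
    (fun k' M => M ^ (-(ε / (2 * ((((r + 1) : ℕ) : ℝ) + 1)) * k'))) (fun k' _ => csL 1 1 1 (ε / (2 * ((((r + 1) : ℕ) : ℝ) + 1))) (by positivity) k') r (d + 3) hK ε hε hε1
  obtain ⟨Q₁, hQ₁⟩ := ((tendsto_natCast_atTop_atTop (R := ℝ)).eventually
    ((tendsto_rpow_atTop hε).eventually_gt_atTop (d : ℝ))).exists_forall_of_atTop
  obtain ⟨p₁, hp₁8, hp₁, hp₂⟩ := evI hcc hε hκ (r + 1)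
  refine ⟨κ, hκ, ⌊((1 : ℕ) + 2 : ℝ) / κ⌋₊, max p₁ (max Q₀ Q₁), ?_⟩
  intro p _ hp hpQ F hF A₀ N₀ A N hA0 hA hN0 hN hP
  have hpr : (p₁ : ℝ) ≤ ((∏ i, p i : ℕ) : ℝ) := by exact_mod_cast (le_max_left _ _).trans hpQ
  have hQ0 : Q₀ ≤ ∏ i, p i := ((le_max_left _ _).trans (le_max_right _ _)).trans hpQ
  have hQ1 : Q₁ ≤ ∏ i, p i := ((le_max_right _ _).trans (le_max_right _ _)).trans hpQ
  have hpos : 0 < ∏ i, p i := Finset.prod_pos fun i _ => (Fact.out : (p i).Prime).pos
  obtain ⟨G, hG, hG2⟩ := h p hp hQ0 (sysT ![0] adm_one) (fun i => (F i).value) (by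
    intro i a t ht
    have hs0 : 0 ≤ Real.sqrt (p i) := Real.sqrt_nonneg _
    have hD0 : (0 : ℝ) ≤ d := Nat.cast_nonneg _
    have hDp : d < p i := by
      have h2 := hQ₁ (∏ i, p i) hQ1
      have h3 := h2.trans_le (hN i)
      have h4 : d < N i := by exact_mod_cast h3
      have := hA i
      omega
    have hok := hF i
    cases hj : F i with
    | poly f =>
      rw [hj] at hok
      obtain ⟨h2, h3⟩ := hok
      have h4 := Pool.Agent.Q46.MH.GG_poly f h2 (lt_of_le_of_lt h3 hDp) a t ht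
      have h5 : (f.natDegree : ℝ) ≤ d := by exact_mod_cast h3
      exact le_trans h4 (mul_le_mul_of_nonneg_right (by linarith) hs0)
    | inv c =>
      exact le_trans (Pool.Agent.Q46.MH.GG_inv c a t ht) (mul_le_mul_of_nonneg_right (by linarith) hs0))
    A₀ N₀ A N hA0 hA hN0 hN hP
  have hlog : 0 ≤ Real.log ((∏ i, p i : ℕ) : ℝ) := Real.log_natCast_nonneg _
  refine ⟨G, le_trans (hp₁ _ hpr _ (div_nonneg (mul_nonneg (Nat.cast_nonneg _)
    (prod_nonneg fun _ _ => Nat.cast_nonneg _)) (Nat.cast_nonneg _))) hG, ?_⟩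
  intro x hx
  obtain ⟨a1, a2, a3, a4⟩ := hG2 x hx
  refine ⟨a1, a2, lone_one hp₁8 hpr a3 ?_, fun i => lone_one hp₁8 hpr (a4 i) ?_⟩
  · exact_mod_cast (by omega : x ≤ ∏ i, p i)
  · have h6 : ((F i).value (x : ZMod (p i))).val < p i := ZMod.val_lt _
    have h7 : p i ≤ ∏ i, p i := Nat.le_of_dvd hpos (dvd_prod_of_mem _ (mem_univ i))
    exact_mod_cast (by omega : ((F i).value (x : ZMod (p i))).val ≤ ∏ i, p i)

end Pool.Agent.Results.MP_7ba156_nt.SeveralPrimeModuli
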